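import Pool.Agent.H143R3.MT.Stmts

/-! Task A4 of project H143-MT: local lower bound for the Skellam law -/

set_option autoImplicit false

open MeasureTheory ProbabilityTheory Filter Topology
open scoped ENNReal NNReal

namespace Pool.Agent.H174R3.MTA4

open Pool.Agent.H143R3.MT

/-- Poisson weights -/
noncomputable def po (l : ℝ) (m : ℕ) : ℝ := Real.exp (-l) * l ^ m / (m.factorial : ℝ)

lemma fact_le (m : ℕ) (hm : 1 ≤ m) :
    (m.factorial : ℝ) ≤ Real.exp 1 * √(m : ℝ) * ((m : ℝ) / Real.exp 1) ^ m := by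
  obtain ⟨n, rfl⟩ : ∃ n, m = n + 1 := ⟨m - 1, by omega⟩
  have h1 : Stirling.stirlingSeq (n + 1) ≤ Stirling.stirlingSeq 1 :=
    Stirling.stirlingSeq'_antitone (Nat.zero_le n)
  rw [Stirling.stirlingSeq_one, Stirling.stirlingSeq, div_le_iff₀ (by positivity)] at h1
  refine le_trans h1 (le_of_eq ?_)
  rw [Real.sqrt_mul (by norm_num)]
  have h2 : √(2 : ℝ) ≠ 0 := by positivity
  field_simp

lemma po_lower (l : ℝ) (hl : 0 < l) (m : ℕ) (hm : 1 ≤ m) :
    Real.exp (-((m : ℝ) - l) ^ 2 / l) / (Real.exp 1 * √(m : ℝ)) ≤ po l m := by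
  have hm0 : (0 : ℝ) < m := by exact_mod_cast hm
  have hf := fact_le m hm
  have hf0 : (0 : ℝ) < (m.factorial : ℝ) := by positivity
  have hlog : 1 - (m : ℝ) / l ≤ Real.log (l / m) := by
    have := Real.one_sub_inv_le_log_of_pos (show 0 < l / m by positivity)
    rwa [inv_div] at this
  have hexp : Real.exp (-((m : ℝ) - l) ^ 2 / l) ≤
      Real.exp (-l) * l ^ m / ((m : ℝ) / Real.exp 1) ^ m := by
    have e1 : Real.exp (-l) * l ^ m / ((m : ℝ) / Real.exp 1) ^ m =
        Real.exp (-l + m + m * Real.log (l / m)) := by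
      rw [Real.exp_add, Real.exp_add, mul_comm (m : ℝ) (Real.log (l / m)), Real.exp_mul,
        Real.exp_log (by positivity), Real.rpow_natCast, div_pow, div_pow]
      have e2 : Real.exp (m : ℝ) = Real.exp 1 ^ m := by
        rw [← Real.exp_nat_mul, mul_one]
      rw [e2]
      field_simp
    rw [e1]
    apply Real.exp_le_exp.mpr
    have h3 : (m : ℝ) * (1 - (m : ℝ) / l) ≤ m * Real.log (l / m) :=
      mul_le_mul_of_nonneg_left hlog hm0.le
    have h4 : -((m : ℝ) - l) ^ 2 / l = -l + m + m * (1 - (m : ℝ) / l) := by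
      field_simp
      ring
    linarith
  unfold po
  rw [div_le_div_iff₀ (by positivity) hf0]
  have hp : 0 < ((m : ℝ) / Real.exp 1) ^ m := by positivity
  rw [le_div_iff₀ hp] at hexp
  calc Real.exp (-((m : ℝ) - l) ^ 2 / l) * (m.factorial : ℝ)
      ≤ Real.exp (-((m : ℝ) - l) ^ 2 / l) *
        (Real.exp 1 * √(m : ℝ) * ((m : ℝ) / Real.exp 1) ^ m) :=
        mul_le_mul_of_nonneg_left hf (Real.exp_pos _).le
    _ = (Real.exp (-((m : ℝ) - l) ^ 2 / l) * ((m : ℝ) / Real.exp 1) ^ m) *
        (Real.exp 1 * √(m : ℝ)) := by ring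
    _ ≤ _ := mul_le_mul_of_nonneg_right hexp (by positivity)

/-- the constant -/
noncomputable def cA (A : ℝ) : ℝ := Real.exp (-A ^ 2) / (Real.exp 1 * √(1 + A))

lemma po_lower2 (A l : ℝ) (hA : 0 ≤ A) (hl : 1 ≤ l) (m : ℕ) (hm : 1 ≤ m)
    (h : |(m : ℝ) - l| ≤ A * √l) : cA A / √l ≤ po l m := by
  have hl0 : 0 < l := by linarith
  have hs : √l ^ 2 = l := Real.sq_sqrt hl0.le
  have hs1 : 1 ≤ √l := by
    rw [Real.one_le_sqrt]
    exact hl
  refine le_trans ?_ (po_lower l hl0 m hm)
  have h1 : Real.exp (-A ^ 2) ≤ Real.exp (-((m : ℝ) - l) ^ 2 / l) := by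
    apply Real.exp_le_exp.mpr
    rw [neg_div, neg_le_neg_iff, div_le_iff₀ hl0]
    calc ((m : ℝ) - l) ^ 2 = |(m : ℝ) - l| ^ 2 := (sq_abs _).symm
      _ ≤ (A * √l) ^ 2 := pow_le_pow_left₀ (abs_nonneg _) h 2
      _ = A ^ 2 * l := by rw [mul_pow, hs]
  have h2 : √(m : ℝ) ≤ √(1 + A) * √l := by
    rw [← Real.sqrt_mul (by linarith)]
    apply Real.sqrt_le_sqrt
    have h3 := (abs_le.mp h).2
    have h4 : √l ≤ l := by nlinarith
    have h5 : A * √l ≤ A * l := mul_le_mul_of_nonneg_left h4 hA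
    linarith
  have hm0 : (0 : ℝ) < m := by exact_mod_cast hm
  have h3 : 0 < √(m : ℝ) := Real.sqrt_pos.mpr hm0
  unfold cA
  rw [div_div]
  apply div_le_div₀ (Real.exp_pos _).le h1 (by positivity)
  calc Real.exp 1 * √(m : ℝ) ≤ Real.exp 1 * (√(1 + A) * √l) :=
        mul_le_mul_of_nonneg_left h2 (Real.exp_pos _).le
    _ = _ := by ring

lemma sk_lower (s : ℝ≥0) (k : ℤ) (S : Finset ℕ) (hS : ∀ m ∈ S, 0 ≤ (m : ℤ) + k) :
    ENNReal.ofReal (∑ m ∈ S, po (s / 2) ((m : ℤ) + k).toNat * po (s / 2) m) ≤ sk s k := by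
  have hpo : ∀ m, 0 ≤ po ((s : ℝ) / 2) m := by
    intro m
    unfold po
    positivity
  unfold sk skellam
  rw [Measure.map_apply (measurable_from_prod_countable_left fun _ => measurable_of_countable _)
    (measurableSet_singleton k)]
  have hpm : ∀ m, poissonMeasure (s / 2) {m} = ENNReal.ofReal (po ((s : ℝ) / 2) m) := by
    intro m
    rw [poissonMeasure_singleton]
    unfold po
    push_cast
    rfl
  rw [ENNReal.ofReal_sum_of_nonneg fun m _ => mul_nonneg (hpo _) (hpo _)]
  have h1 : ∀ m ∈ S, ENNReal.ofReal (po ((s : ℝ) / 2) ((m : ℤ) + k).toNat * po ((s : ℝ) / 2) m) =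
      ((poissonMeasure (s / 2)).prod (poissonMeasure (s / 2))) {(((m : ℤ) + k).toNat, m)} := by
    intro m _
    rw [← Set.singleton_prod_singleton, Measure.prod_prod, hpm, hpm, ENNReal.ofReal_mul (hpo _)]
  rw [Finset.sum_congr rfl h1]
  have h2 : ∑ m ∈ S, ((poissonMeasure (s / 2)).prod (poissonMeasure (s / 2)))
      {(((m : ℤ) + k).toNat, m)} = ((poissonMeasure (s / 2)).prod (poissonMeasure (s / 2)))
        (⋃ m ∈ S, {(((m : ℤ) + k).toNat, m)}) := by
    rw [measure_biUnion_finset]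
    · intro a _ b _ hab
      simp only [Function.onFun, Set.disjoint_singleton_right, Set.mem_singleton_iff, Prod.mk.injEq,
        not_and]
      intro _ h
      exact hab h.symm
    · intro m _
      exact measurableSet_singleton _
  rw [h2]
  apply measure_mono
  intro p hp
  simp only [Set.mem_iUnion, Set.mem_singleton_iff, exists_prop] at hp
  obtain ⟨m, hm, rfl⟩ := hp
  have := hS m hm
  simp only [Set.mem_preimage, Set.mem_singleton_iff]
  omega

theorem taskA4 : TaskA4 := by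
  intro K
  set A : ℝ := 1 + |K| * √2 with hA
  have hA1 : 1 ≤ A := by
    rw [hA]
    have : 0 ≤ |K| * √2 := by positivity
    linarith
  have hc : 0 < cA A := by
    unfold cA
    positivity
  refine ⟨cA A ^ 2 / 2, by positivity, Real.toNNReal (2 * (A + 2) ^ 2), ?_, ?_⟩
  · exact Real.toNNReal_pos.mpr (by positivity)
  · intro s hs k hk
    have hs' : 2 * (A + 2) ^ 2 ≤ (s : ℝ) := Real.toNNReal_le_iff_le_coe.mp hs
    set l : ℝ := (s : ℝ) / 2 with hl
    have hl2 : (A + 2) ^ 2 ≤ l := by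
      rw [hl]
      linarith
    have hl1 : 1 ≤ l := by nlinarith
    have hl0 : 0 < l := by linarith
    have hsl : √(s : ℝ) = √2 * √l := by
      rw [← Real.sqrt_mul (by norm_num), hl]
      congr 1
      ring
    have hq : √l ^ 2 = l := Real.sq_sqrt hl0.le
    have hq1 : A + 2 ≤ √l := Real.le_sqrt_of_sq_le hl2
    have hkA : |(k : ℝ)| ≤ (A - 1) * √l := by
      refine le_trans hk ?_
      rw [hsl, hA]
      have h1 : K ≤ |K| := le_abs_self K
      have h2 : 0 ≤ √2 * √l := by positivity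
      nlinarith [mul_le_mul_of_nonneg_right h1 h2]
    have hkA' := abs_le.mp hkA
    set r : ℕ := ⌊√l⌋₊ with hr
    have hr1 : √l - 1 < r := by
      have := Nat.lt_floor_add_one (√l)
      rw [← hr] at this
      linarith
    have hr2 : (r : ℝ) ≤ √l := Nat.floor_le (by positivity)
    set S : Finset ℕ := (Finset.range r).image (fun i => ⌈l⌉₊ + i) with hS
    have hScard : S.card = r := by
      rw [hS, Finset.card_image_of_injective _ (fun a b h => by simpa using h), Finset.card_range]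
    have hSm : ∀ m ∈ S, l ≤ m ∧ (m : ℝ) ≤ l + √l := by
      intro m hm
      rw [hS, Finset.mem_image] at hm
      obtain ⟨i, hi, rfl⟩ := hm
      rw [Finset.mem_range] at hi
      have h1 : l ≤ ⌈l⌉₊ := Nat.le_ceil l
      have h2 : (⌈l⌉₊ : ℝ) < l + 1 := Nat.ceil_lt_add_one hl0.le
      have h3 : (i : ℝ) + 1 ≤ r := by exact_mod_cast hi
      have h4 : (0 : ℝ) ≤ i := by positivity
      push_cast
      constructor <;> linarith
    have hpos : ∀ m ∈ S, 0 ≤ (m : ℤ) + k := by
      intro m hm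
      have h1 := (hSm m hm).1
      have h2 : (0 : ℝ) ≤ (m : ℝ) + k := by nlinarith
      exact_mod_cast h2
    refine le_trans ?_ (sk_lower s k S hpos)
    apply ENNReal.ofReal_le_ofReal
    have hterm : ∀ m ∈ S, (cA A / √l) * (cA A / √l) ≤ po l ((m : ℤ) + k).toNat * po l m := by
      intro m hm
      obtain ⟨h1, h2⟩ := hSm m hm
      have hm1 : 1 ≤ m := by
        have : (1 : ℝ) ≤ m := by linarith
        exact_mod_cast this
      have e : ((((m : ℤ) + k).toNat : ℕ) : ℝ) = (m : ℝ) + k := by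
        have h3 := Int.toNat_of_nonneg (hpos m hm)
        have h4 : (((((m : ℤ) + k).toNat : ℕ) : ℤ) : ℝ) = (((m : ℤ) + k : ℤ) : ℝ) := by rw [h3]
        push_cast at h4
        exact h4
      have hmk1 : 1 ≤ ((m : ℤ) + k).toNat := by
        have : (1 : ℝ) ≤ ((((m : ℤ) + k).toNat : ℕ) : ℝ) := by
          rw [e]
          nlinarith
        exact_mod_cast this
      have a1 : cA A / √l ≤ po l m := by
        apply po_lower2 A l (by linarith) hl1 m hm1
        rw [abs_le]
        constructor <;> nlinarith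
      have a2 : cA A / √l ≤ po l ((m : ℤ) + k).toNat := by
        apply po_lower2 A l (by linarith) hl1 _ hmk1
        rw [e, abs_le]
        constructor <;> nlinarith
      exact mul_le_mul a2 a1 (by positivity) (le_trans (by positivity) a2)
    have hsum := Finset.sum_le_sum hterm
    rw [Finset.sum_const, hScard, nsmul_eq_mul] at hsum
    refine le_trans ?_ hsum
    have hsq : 0 < √l := by linarith
    have h5 : (cA A / √l) * (cA A / √l) = cA A ^ 2 / l := by
      rw [div_mul_div_comm, ← pow_two, ← pow_two, hq]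
    rw [h5, hsl]
    have h6 : √l / 2 ≤ r := by linarith
    have h7 : cA A ^ 2 / 2 / (√2 * √l) ≤ √l / 2 * (cA A ^ 2 / l) := by
      have h8 : √l / 2 * (cA A ^ 2 / l) = cA A ^ 2 / 2 / √l := by
        field_simp
        rw [hq]
      rw [h8]
      apply div_le_div_of_nonneg_left (by positivity) hsq
      have h9 : 1 ≤ √(2 : ℝ) := by
        rw [Real.one_le_sqrt]
        norm_num
      nlinarith
    refine le_trans h7 ?_
    exact mul_le_mul_of_nonneg_right h6 (by positivity)

end Pool.Agent.H174R3.MTA4
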